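import Pool.Agent.TH518.CW.Fin
import Pool.Agent.TH518.CW.TwoC
import Pool.Agent.R724.SH.Beatty

set_option autoImplicit false

/-!
# General collisions of 10, …, 15 fat points in every characteristic: the open cases are a Beatty
sequence

Let `10 ≤ r ≤ 15` and `α = (√r + 3) / (r - 9)`, so `α = 3 + √10` for `r = 10`. For every field `k` (of
any characteristic), every `m` and all `(c, a)` outside a hypersurface, the forms of degree `d` through
the subscheme of the plane with ideal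
`(y - (a₀ + a₁ x + ... + a_(r-1) x ^ (r-1)), (x - c) ^ r) ^ m` have the expected dimension in EVERY degree
`d`, unless `m = ⌊j α⌋` for some `j ≥ 1`, and then in every degree but `d = 3 m + j`.
-/

namespace Pool.Agent.Results.MP_e6aa12_ag.BeattyMultiplicities

open Polynomial

universe u

/-- The forms of degree `d` in three variables whose dehomogenisation lies in the ideal
`(y - ∑ a_j x ^ j, (x - c) ^ r) ^ m` of `k[x][y]`. -/
noncomputable def forms {k : Type u} [Field k] {r : ℕ} (m : ℕ) (c : k) (a : Fin r → k) (d : ℕ) :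
    Submodule k (MvPolynomial (Fin 3) k) :=
  MvPolynomial.homogeneousSubmodule (Fin 3) k d ⊓
    (Submodule.restrictScalars k
      ((Ideal.span {X - C (∑ j : Fin r, C (a j) * X ^ (j : ℕ)), C ((X - C c) ^ r)} :
        Ideal k[X][X]) ^ m)).comap
      (MvPolynomial.aeval ![C X, X, 1] :
        MvPolynomial (Fin 3) k →ₐ[k] k[X][X]).toLinearMap

/-- Over every field, for all `(c, a)` outside a hypersurface, the space of forms has the expected
dimension in all degrees `d` in the set `S`. -/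
def Expected (r m : ℕ) (S : Set ℕ) : Prop :=
  ∀ (k : Type u) [Field k],
    ∃ F : MvPolynomial (Fin (r + 1)) k, F ≠ 0 ∧
      ∀ (c : k) (a : Fin r → k), MvPolynomial.eval (Fin.cons c a : Fin (r + 1) → k) F ≠ 0 →
        ∀ d ∈ S, Module.finrank k (forms m c a d) = Nat.choose (d + 2) 2 - r * Nat.choose (m + 1) 2

/-- `α = (√r + 3) / (r - 9) = 1 / (√r - 3)` -/
noncomputable def alpha (r : ℕ) : ℝ := (Real.sqrt r + 3) / ((r : ℝ) - 9)

theorem Expected.mono {r m : ℕ} {S S' : Set ℕ} (h : Expected.{u} r m S') (hS : S ⊆ S') :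
    Expected.{u} r m S := by
  intro k _
  obtain ⟨F, hF, hF'⟩ := h k
  exact ⟨F, hF, fun c a hc d hd => hF' c a hc d (hS hd)⟩

/-- all six numbers of points -/
theorem general {r : ℕ} (hr : 10 ≤ r) (m : ℕ) :
    Expected.{u} r m {d | ∀ j : ℕ, 1 ≤ j → m = ⌊(j : ℝ) * alpha r⌋₊ → d ≠ 3 * m + j} := by
  intro k _
  obtain ⟨F, hF, hF'⟩ := Pool.Agent.TH518.CW.coll_all (m := m) hr k
  refine ⟨F, hF, fun c a hc d hd => hF' c a hc d ?_⟩
  show (d : ℝ) ≤ Real.sqrt r * m ∨ Real.sqrt r * (m + 1) ≤ d + 3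
  by_contra hcon
  push Not at hcon
  obtain ⟨j, hj, hj1, hj2⟩ := R724.SH.beatty hr hcon.1 hcon.2
  exact hd j hj hj1 hj2

/-- eleven and thirteen points -/
theorem three {r : ℕ} (hr : r = 11 ∨ r = 13) (m : ℕ) :
    Expected.{u} r m {d | ∀ j : ℕ, 1 ≤ j → m = ⌊3 * (j : ℝ) * alpha r⌋₊ →
      Int.fract (3 * (j : ℝ) * alpha r) < 1 / 2 → d ≠ 3 * (m + j)} := by
  have h1 : Expected.{u} r m
      {d | ¬ 3 ∣ d ∨ (d : ℝ) ≤ Real.sqrt r * m ∨ Real.sqrt r * (2 * m + 1) ≤ 2 * d + 3} := by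
    intro k _
    rcases hr with rfl | rfl
    · obtain ⟨F, hF, hF'⟩ := Pool.Agent.TH518.CW.eleven_coll (m := m) k
      exact ⟨F, hF, fun c a hc d hd => hF' c a hc d hd⟩
    · obtain ⟨F, hF, hF'⟩ := Pool.Agent.TH518.CW.thirteen_coll (m := m) k
      exact ⟨F, hF, fun c a hc d hd => hF' c a hc d hd⟩
  refine h1.mono fun d hd => ?_
  by_contra hcon
  rw [Set.mem_ofPred_eq] at hcon
  push Not at hcon
  obtain ⟨j, hj, hj1, hj2, hj3⟩ := R724.SH.beatty3 (by omega) hcon.1 hcon.2.1 hcon.2.2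
  exact hd j hj hj1 hj2 hj3

/-- a multiplicity which is not settled in every degree -/
theorem bad {r : ℕ} (hr : 10 ≤ r) {m : ℕ} (h : ¬ Expected.{u} r m Set.univ) :
    ∃ j : ℕ, 1 ≤ j ∧ m = ⌊(j : ℝ) * alpha r⌋₊ := by
  by_contra hcon
  push Not at hcon
  exact h ((general hr m).mono fun d _ j hj hj1 => absurd hj1 (hcon j hj))

theorem bad3 {r : ℕ} (hr : r = 11 ∨ r = 13) {m : ℕ} (h : ¬ Expected.{u} r m Set.univ) :
    ∃ j : ℕ, 1 ≤ j ∧ m = ⌊(j : ℝ) * (3 * alpha r)⌋₊ := by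
  by_contra hcon
  push Not at hcon
  refine h ((three hr m).mono fun d _ j hj hj1 => ?_)
  apply absurd hj1
  have h1 := hcon j hj
  rwa [show (j : ℝ) * (3 * alpha r) = 3 * (j : ℝ) * alpha r by ring] at h1

theorem distance {r : ℕ} {x : ℝ} {g : ℕ} (hx : (g : ℝ) ≤ x)
    (h : ∀ m : ℕ, ¬ Expected.{u} r m Set.univ → ∃ j : ℕ, 1 ≤ j ∧ m = ⌊(j : ℝ) * x⌋₊) {m m' : ℕ}
    (hmm : m < m') (h1 : ¬ Expected.{u} r m Set.univ) (h2 : ¬ Expected.{u} r m' Set.univ) :
    m + g ≤ m' := by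
  obtain ⟨j, -, hj⟩ := h m h1
  obtain ⟨j', -, hj'⟩ := h m' h2
  have h3 := R724.SH.gap (x := x) ((Nat.cast_nonneg g).trans hx) (j := j) (j' := j')
    (by rw [← hj, ← hj']; exact hmm)
  rw [← hj, ← hj'] at h3
  have h4 : g ≤ ⌊x⌋₊ := Nat.le_floor hx
  omega

theorem few {r : ℕ} {x : ℝ} (hx : 0 < x)
    (h : ∀ m : ℕ, ¬ Expected.{u} r m Set.univ → ∃ j : ℕ, 1 ≤ j ∧ m = ⌊(j : ℝ) * x⌋₊) (M : ℕ) :
    (Set.ncard {m : ℕ | m ≤ M ∧ ¬ Expected.{u} r m Set.univ} : ℝ) * x ≤ M + 1 := by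
  classical
  have hset : {m : ℕ | m ≤ M ∧ ¬ Expected.{u} r m Set.univ} =
      ↑((Finset.range (M + 1)).filter fun m => ¬ Expected.{u} r m Set.univ) := by
    ext m
    simp only [Set.mem_ofPred_eq, Finset.coe_filter, Finset.mem_range, Nat.lt_succ_iff]
  rw [hset, Set.ncard_coe_finset]
  apply R724.SH.count hx
  · intro m hm
    exact Nat.lt_succ_iff.1 (Finset.mem_range.1 (Finset.mem_filter.1 hm).1)
  · intro m hm
    exact h m (Finset.mem_filter.1 hm).2

/-- **Collisions of 10, …, 15 fat points: the open cases.** -/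
theorem result :
    (∀ r m : ℕ, 10 ≤ r → r ≤ 15 →
      Expected.{u} r m {d | ∀ j : ℕ, 1 ≤ j → m = ⌊(j : ℝ) * alpha r⌋₊ → d ≠ 3 * m + j}) ∧
    (∀ r m : ℕ, r = 11 ∨ r = 13 →
      Expected.{u} r m {d | ∀ j : ℕ, 1 ≤ j → m = ⌊3 * (j : ℝ) * alpha r⌋₊ →
        Int.fract (3 * (j : ℝ) * alpha r) < 1 / 2 → d ≠ 3 * (m + j)}) ∧
    (∀ r g : ℕ, (r, g) ∈ ({(10, 6), (11, 9), (12, 2), (13, 4)} : Set (ℕ × ℕ)) → ∀ m m' : ℕ,
      m < m' → ¬ Expected.{u} r m Set.univ → ¬ Expected.{u} r m' Set.univ → m + g ≤ m') ∧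
    (∀ r M : ℕ, 10 ≤ r → r ≤ 15 →
      (Set.ncard {m : ℕ | m ≤ M ∧ ¬ Expected.{u} r m Set.univ} : ℝ) ≤
        (Real.sqrt r - 3) * (M + 1)) := by
  refine ⟨fun r m hr _ => general hr m, fun r m hr => three hr m, fun r g hrg m m' hmm h1 h2 => ?_,
    fun r M hr hr' => ?_⟩
  · simp only [Set.mem_insert_iff, Set.mem_singleton_iff, Prod.mk.injEq] at hrg
    rcases hrg with ⟨rfl, rfl⟩ | ⟨rfl, rfl⟩ | ⟨rfl, rfl⟩ | ⟨rfl, rfl⟩
    · refine distance (x := alpha 10) ?_ (fun m h => bad (by norm_num) h) hmm h1 h2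
      have := R724.SH.sqrt_gt (r := 10) (by norm_num)
      unfold alpha
      push_cast at this ⊢
      rw [le_div_iff₀ (by norm_num)]
      linarith
    · refine distance (x := 3 * alpha 11) ?_ (fun m h => bad3 (by norm_num) h) hmm h1 h2
      have := R724.SH.sqrt_gt (r := 11) (by norm_num)
      unfold alpha
      push_cast at this ⊢
      rw [← mul_div_assoc, le_div_iff₀ (by norm_num)]
      linarith
    · refine distance (x := alpha 12) ?_ (fun m h => bad (by norm_num) h) hmm h1 h2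
      have := R724.SH.sqrt_gt (r := 12) (by norm_num)
      unfold alpha
      push_cast at this ⊢
      rw [le_div_iff₀ (by norm_num)]
      linarith
    · refine distance (x := 3 * alpha 13) ?_ (fun m h => bad3 (by norm_num) h) hmm h1 h2
      have := R724.SH.sqrt_gt (r := 13) (by norm_num)
      unfold alpha
      push_cast at this ⊢
      rw [← mul_div_assoc, le_div_iff₀ (by norm_num)]
      linarith
  · have h1 := few (x := alpha r) (R724.SH.alpha_pos hr) (fun m h => bad hr h) M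
    have h2 : alpha r * (Real.sqrt r - 3) = 1 := R724.SH.alpha_mul hr
    have h3 := R724.SH.sqrt_gt hr
    have h4 := mul_le_mul_of_nonneg_right h1 (show 0 ≤ Real.sqrt r - 3 by linarith)
    rw [mul_assoc, h2, mul_one] at h4
    rw [mul_comm]
    exact h4

end Pool.Agent.Results.MP_e6aa12_ag.BeattyMultiplicities
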