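import Pool.Agent.R36.PS.Main
import Pool.Agent.H932R6.FinalR
import Pool.Agent.W610.DataX

set_option autoImplicit false

/-!
# General collisions of a square number `s ^ 2` of fat points

For `r = s ^ 2` the general subscheme of the plane with ideal
`(y - (a₀ + a₁ x + ... + a_(r-1) x ^ (r-1)), (x - c) ^ r) ^ m` is compared with the one on the
rational cuspidal curve `y = x ^ s` at the point `(1, 1)`. Restriction to this curve turns forms
into polynomials with few terms divisible by a power of `x - 1`, and in characteristic zero a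
nonzero polynomial with at most `n` terms is not divisible by `(x - 1) ^ n`. For large `s` and
`m ≤ exp ((s ^ 2) ^ (1 / 1000) / 2)` this settles the degree `(2 s m + s - 3) / 2`, the only one
left open by the estimates behind `AllButOneExponential`.
-/

namespace Pool.Agent.Results.MP_e6aa12_ag.PerfectSquares

open Polynomial

universe u

/-- The forms of degree `d` in three variables whose dehomogenisation lies in the ideal
`(y - ∑ a_j x ^ j, (x - c) ^ r) ^ m` of `k[x][y]`. -/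
noncomputable def forms {k : Type u} [Field k] {r : ℕ} (m : ℕ) (c : k) (a : Fin r → k) (d : ℕ) :
    Submodule k (MvPolynomial (Fin 3) k) :=
  MvPolynomial.homogeneousSubmodule (Fin 3) k d ⊓
    (Submodule.restrictScalars k
      ((Ideal.span {X - C (∑ j : Fin r, C (a j) * X ^ (j : ℕ)), C ((X - C c) ^ r)} :
        Ideal k[X][X]) ^ m)).comap
      (MvPolynomial.aeval ![C X, X, 1] :
        MvPolynomial (Fin 3) k →ₐ[k] k[X][X]).toLinearMap

/-- The characteristic of `k` is zero or larger than `N`. -/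
def CharAbove (k : Type u) [Field k] (N : ℕ) : Prop := ∀ q : ℕ, 0 < q → q ≤ N → (q : k) ≠ 0

/-- `General k r A`: there is a nonzero polynomial `F` such that `A c a` holds for all `(c, a)`
with `F(c, a) ≠ 0`. -/
def General (k : Type u) [Field k] (r : ℕ) (A : k → (Fin r → k) → Prop) : Prop :=
  ∃ F : MvPolynomial (Fin (r + 1)) k, F ≠ 0 ∧ ∀ (c : k) (a : Fin r → k),
    MvPolynomial.eval (Fin.cons c a : Fin (r + 1) → k) F ≠ 0 → A c a

/-- The space of forms of degree `d` has the expected dimension. -/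
def Expected {k : Type u} [Field k] {r : ℕ} (m : ℕ) (c : k) (a : Fin r → k) (d : ℕ) : Prop :=
  Module.finrank k (forms m c a d) = Nat.choose (d + 2) 2 - r * Nat.choose (m + 1) 2

theorem main (k : Type u) [Field k] (s m : ℕ) (hs : 4 ≤ s) (hk : CharAbove k (s ^ 2 * (m + 1))) :
    General k (s ^ 2) fun c a =>
      (∀ d : ℕ, d ≤ s * m ∨ 2 * s * m + s ≤ 2 * d + 3 → Expected m c a d) ∧
      ∀ j : ℕ, 2 * j + 3 ≤ s → Module.finrank k (forms m c a (s * m + j)) ≤ (j + 2).choose 2 := by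
  obtain ⟨F, hF, hF'⟩ := Pool.Agent.R36.PS.main (K := k) hs m hk
  refine ⟨F, hF, fun c a hc => ?_⟩
  obtain ⟨h1, h2⟩ := hF' c a hc
  refine ⟨fun d hd => h1 d (by rwa [mul_assoc] at hd), fun j hj => h2 j hj⟩

theorem exponential : ∃ N : ℕ, ∀ s : ℕ, N ≤ s → ∀ m : ℕ, 0 < m →
    (m : ℝ) ≤ Real.exp (((s : ℝ) ^ 2) ^ (1 / 1000 : ℝ) / 2) →
    ∀ (k : Type u) [Field k] [Infinite k], CharAbove k (s ^ 2 * (m + 2)) →
      General k (s ^ 2) fun c a => ∀ d : ℕ, Expected m c a d := by
  obtain ⟨N, hN100, hN⟩ := Pool.Agent.W610.exists_dataX (ε := 1) one_pos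
  obtain ⟨N', hNN', hN'100, hN'⟩ := Pool.Agent.W610.exists_kX N
  refine ⟨N', fun s hs m hm hmX K _ _ hchar => ?_⟩
  have hs2 : N' ≤ s ^ 2 := hs.trans (Nat.le_self_pow (by norm_num) s)
  obtain ⟨q, Q, hQ1, hQ2, hq2⟩ := hN' (s ^ 2) hs2
  obtain ⟨u, v, δ, σ, hD⟩ := hN (s ^ 2) q Q (by omega) hQ1 hQ2
  have h1 := hq2 m (by push_cast; exact hmX)
  have hq0 : 1 ≤ q := by
    by_contra hcon
    have : q = 0 := by omega
    subst this
    rw [pow_zero] at h1
    omega
  obtain ⟨F, hF, hF'⟩ := Pool.Agent.H932R6.win_collisionR (K := K) hD (by omega) hq0 hm (by omega)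
    hchar
  obtain ⟨G, hG, hG'⟩ := main K s m (by omega)
    (fun j hj hj' => hchar j hj (hj'.trans (Nat.mul_le_mul_left _ (by omega))))
  refine ⟨F * G, mul_ne_zero hF hG, fun c a hc d => ?_⟩
  rw [map_mul] at hc
  rcases Nat.lt_or_ge (2 * d + 3) (2 * s * m + s) with h | h
  · refine hF' c a (left_ne_zero_of_mul hc) d (Pool.Agent.H932R6.WinE.uni (by omega) ?_)
    have hsq : Real.sqrt ((s ^ 2 : ℕ) : ℝ) = s := by
      push_cast
      exact Real.sqrt_sq (Nat.cast_nonneg s)
    rw [hsq]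
    have h' : (2 * (d : ℝ) + 3) + 1 ≤ 2 * s * m + s := by exact_mod_cast h
    rw [abs_of_nonpos (by linarith)]
    linarith
  · exact (hG' c a (right_ne_zero_of_mul hc)).1 d (Or.inr h)

theorem result :
    (∀ (k : Type u) [Field k] (m : ℕ), CharAbove k (25 * (m + 1)) →
      General k 25 fun c a => ∀ d : ℕ, Expected m c a d) ∧
    (∀ (k : Type u) [Field k] (s m : ℕ), 4 ≤ s → CharAbove k (s ^ 2 * (m + 1)) →
      General k (s ^ 2) fun c a =>
        (∀ d : ℕ, d ≤ s * m ∨ 2 * s * m + s ≤ 2 * d + 3 → Expected m c a d) ∧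
        ∀ j : ℕ, 2 * j + 3 ≤ s →
          Module.finrank k (forms m c a (s * m + j)) ≤ (j + 2).choose 2) ∧
    ∃ N : ℕ, ∀ s : ℕ, N ≤ s → ∀ m : ℕ, 0 < m →
      (m : ℝ) ≤ Real.exp (((s : ℝ) ^ 2) ^ (1 / 1000 : ℝ) / 2) →
      ∀ (k : Type u) [Field k] [Infinite k], CharAbove k (s ^ 2 * (m + 2)) →
        General k (s ^ 2) fun c a => ∀ d : ℕ, Expected m c a d := by
  refine ⟨fun k _ m hk => ?_, fun k _ s m hs hk => main k s m hs hk, exponential⟩
  obtain ⟨F, hF, hF'⟩ := main k 5 m (by norm_num) hk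
  exact ⟨F, hF, fun c a hc d => (hF' c a hc).1 d (by omega)⟩

end Pool.Agent.Results.MP_e6aa12_ag.PerfectSquares
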